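import Mathlib

set_option autoImplicit false

/-! Cubic triangle-free graphs with many maximal independent sets: disjoint unions of a graph on 12
vertices with 31 maximal independent sets, a graph on 8 vertices with 8 of them and Petersen
graphs. -/

namespace Pool.Agent.H4.Cub

/-- The number of maximal independent sets of a graph. -/
noncomputable def mis {V : Type} (G : SimpleGraph V) : ℕ :=
  {s : Set V | Maximal G.IsIndepSet s}.ncard

/-- The set of `V ⊕ W` with the given parts. -/
def join {V W : Type} (p : Set V × Set W) : Set (V ⊕ W) :=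
  {x | match x with
    | Sum.inl v => v ∈ p.1
    | Sum.inr w => w ∈ p.2}

theorem mem_join_inl {V W : Type} (p : Set V × Set W) (v : V) :
    (Sum.inl v : V ⊕ W) ∈ join p ↔ v ∈ p.1 := Iff.rfl

theorem mem_join_inr {V W : Type} (p : Set V × Set W) (w : W) :
    (Sum.inr w : V ⊕ W) ∈ join p ↔ w ∈ p.2 := Iff.rfl

theorem join_inj {V W : Type} : Function.Injective (join : Set V × Set W → Set (V ⊕ W)) := by
  rintro ⟨s, t⟩ ⟨s', t'⟩ h
  have h1 : s = s' := by
    ext v
    have : (Sum.inl v : V ⊕ W) ∈ join (s, t) ↔ (Sum.inl v : V ⊕ W) ∈ join (s', t') := by rw [h]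
    simpa only [mem_join_inl] using this
  have h2 : t = t' := by
    ext w
    have : (Sum.inr w : V ⊕ W) ∈ join (s, t) ↔ (Sum.inr w : V ⊕ W) ∈ join (s', t') := by rw [h]
    simpa only [mem_join_inr] using this
  rw [h1, h2]

theorem maximal_iff {V : Type} (G : SimpleGraph V) (s : Set V) :
    Maximal G.IsIndepSet s ↔ G.IsIndepSet s ∧ ∀ x, x ∉ s → ∃ y ∈ s, G.Adj x y := by
  constructor
  · rintro ⟨h1, h2⟩
    refine ⟨h1, fun x hx => ?_⟩
    by_contra hc
    simp only [not_exists, not_and] at hc
    have h3 : G.IsIndepSet (insert x s) := by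
      intro a ha b hb hab hadj
      rcases ha with rfl | ha
      · rcases hb with rfl | hb
        · exact hab rfl
        · exact hc b hb hadj
      · rcases hb with rfl | hb
        · exact hc a ha hadj.symm
        · exact h1 ha hb hab hadj
    exact hx (h2 h3 (Set.subset_insert x s) (Set.mem_insert x s))
  · rintro ⟨h1, h2⟩
    refine ⟨h1, fun t ht hst x hx => ?_⟩
    by_contra hc
    obtain ⟨y, hy, ha⟩ := h2 x hc
    exact ht hx (hst hy) ha.ne ha

theorem maximal_join {V W : Type} (G : SimpleGraph V) (H : SimpleGraph W)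
    (p : Set V × Set W) :
    Maximal (G.sum H).IsIndepSet (join p) ↔
      Maximal G.IsIndepSet p.1 ∧ Maximal H.IsIndepSet p.2 := by
  rw [maximal_iff, maximal_iff, maximal_iff]
  constructor
  · rintro ⟨h1, h2⟩
    refine ⟨⟨?_, ?_⟩, ⟨?_, ?_⟩⟩
    · intro a ha b hb hab hadj
      exact h1 (x := Sum.inl a) ((mem_join_inl p a).2 ha) (y := Sum.inl b)
        ((mem_join_inl p b).2 hb) (fun h => hab (Sum.inl_injective h))
        (SimpleGraph.sum_adj_inl.2 hadj)
    · intro x hx
      obtain ⟨y, hy, ha⟩ := h2 (Sum.inl x) (fun h => hx ((mem_join_inl p x).1 h))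
      rcases y with y | y
      · exact ⟨y, (mem_join_inl p y).1 hy, SimpleGraph.sum_adj_inl.1 ha⟩
      · simp at ha
    · intro a ha b hb hab hadj
      exact h1 (x := Sum.inr a) ((mem_join_inr p a).2 ha) (y := Sum.inr b)
        ((mem_join_inr p b).2 hb) (fun h => hab (Sum.inr_injective h))
        (SimpleGraph.sum_adj_inr.2 hadj)
    · intro x hx
      obtain ⟨y, hy, ha⟩ := h2 (Sum.inr x) (fun h => hx ((mem_join_inr p x).1 h))
      rcases y with y | y
      · simp at ha
      · exact ⟨y, (mem_join_inr p y).1 hy, SimpleGraph.sum_adj_inr.1 ha⟩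
  · rintro ⟨⟨h1, h2⟩, ⟨h3, h4⟩⟩
    refine ⟨?_, ?_⟩
    · rintro (a | a) ha (b | b) hb hab hadj
      · exact h1 ((mem_join_inl p a).1 ha) ((mem_join_inl p b).1 hb)
          (fun h => hab (by rw [h])) (SimpleGraph.sum_adj_inl.1 hadj)
      · simp at hadj
      · simp at hadj
      · exact h3 ((mem_join_inr p a).1 ha) ((mem_join_inr p b).1 hb)
          (fun h => hab (by rw [h])) (SimpleGraph.sum_adj_inr.1 hadj)
    · rintro (x | x) hx
      · obtain ⟨y, hy, ha⟩ := h2 x (fun h => hx ((mem_join_inl p x).2 h))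
        exact ⟨Sum.inl y, (mem_join_inl p y).2 hy, SimpleGraph.sum_adj_inl.2 ha⟩
      · obtain ⟨y, hy, ha⟩ := h4 x (fun h => hx ((mem_join_inr p x).2 h))
        exact ⟨Sum.inr y, (mem_join_inr p y).2 hy, SimpleGraph.sum_adj_inr.2 ha⟩

/-- The number of maximal independent sets is multiplicative over disjoint unions. -/
theorem mis_sum {V W : Type} (G : SimpleGraph V) (H : SimpleGraph W) :
    mis (G.sum H) = mis G * mis H := by
  unfold mis
  rw [← Set.ncard_prod, ← Set.ncard_image_of_injective _ join_inj]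
  congr 1
  ext s
  constructor
  · intro hs
    refine ⟨({v | Sum.inl v ∈ s}, {w | Sum.inr w ∈ s}), ?_, ?_⟩
    · have he : join ({v | Sum.inl v ∈ s}, {w | Sum.inr w ∈ s}) = s := by
        ext x
        rcases x with x | x <;> rfl
      have hs' : Maximal (G.sum H).IsIndepSet
          (join ({v | Sum.inl v ∈ s}, {w | Sum.inr w ∈ s})) := by
        rw [he]
        exact hs
      exact (maximal_join G H _).1 hs'
    · ext x
      rcases x with x | x <;> rfl
  · rintro ⟨p, hp, rfl⟩
    exact (maximal_join G H p).2 hp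

/-- A graph with the three properties: all degrees `3`, no triangle, `m` maximal independent
sets. -/
def Good {V : Type} (G : SimpleGraph V) (m : ℕ) : Prop :=
  (∀ v, (G.neighborSet v).ncard = 3) ∧ G.CliqueFree 3 ∧ mis G = m

theorem Good.sum {V W : Type} {G : SimpleGraph V} {H : SimpleGraph W} {a b : ℕ}
    (hG : Good G a) (hH : Good H b) : Good (G.sum H) (a * b) := by
  refine ⟨?_, ?_, ?_⟩
  · rintro (v | w)
    · have h : (G.sum H).neighborSet (Sum.inl v) = Sum.inl '' G.neighborSet v := by
        ext x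
        rcases x with x | x <;> simp
      rw [h, Set.ncard_image_of_injective _ Sum.inl_injective]
      exact hG.1 v
    · have h : (G.sum H).neighborSet (Sum.inr w) = Sum.inr '' H.neighborSet w := by
        ext x
        rcases x with x | x <;> simp
      rw [h, Set.ncard_image_of_injective _ Sum.inr_injective]
      exact hH.1 w
  · classical
    intro s hs
    rw [SimpleGraph.is3Clique_iff] at hs
    obtain ⟨a, b, c, hab, hac, hbc, -⟩ := hs
    rcases a with a | a <;> rcases b with b | b <;> rcases c with c | c <;> simp at hab hac hbc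
    · exact hG.2.1 {a, b, c} (SimpleGraph.is3Clique_iff.2 ⟨a, b, c, hab, hac, hbc, rfl⟩)
    · exact hH.2.1 {a, b, c} (SimpleGraph.is3Clique_iff.2 ⟨a, b, c, hab, hac, hbc, rfl⟩)
  · rw [mis_sum, hG.2.2, hH.2.2]

end Pool.Agent.H4.Cub
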