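import Mathlib
import Pool.Agent.H4.Cub.Main

set_option autoImplicit false

/-! The three small graphs. -/

namespace Pool.Agent.H4.Cub

/-- The graph on `Fin n` with the given neighbours, if they are symmetric and irreflexive. -/
def ofNb {n : ℕ} (nb : Fin n → List (Fin n))
    (hs : ∀ a b, b ∈ nb a → a ∈ nb b) (hi : ∀ a, a ∉ nb a) : SimpleGraph (Fin n) where
  Adj a b := b ∈ nb a
  symm := ⟨fun a b h => hs a b h⟩
  loopless := ⟨fun a h => hi a h⟩

/-- `f` is the indicator function of a maximal independent set. -/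
def isM {n : ℕ} (nb : Fin n → List (Fin n)) (f : Fin n → Bool) : Bool :=
  (List.finRange n).all fun a =>
    if f a then (nb a).all fun b => !(f b) else (nb a).any f

theorem isM_iff {n : ℕ} (nb : Fin n → List (Fin n)) (hs : ∀ a b, b ∈ nb a → a ∈ nb b)
    (hi : ∀ a, a ∉ nb a) (f : Fin n → Bool) :
    isM nb f = true ↔ Maximal (ofNb nb hs hi).IsIndepSet {a | f a = true} := by
  rw [maximal_iff]
  unfold isM
  rw [List.all_eq_true]
  constructor
  · intro h
    refine ⟨?_, ?_⟩
    · intro a ha b hb _ hadj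
      have h1 := h a (List.mem_finRange a)
      have ha' : f a = true := ha
      have hb' : f b = true := hb
      rw [if_pos ha', List.all_eq_true] at h1
      have h2 := h1 b hadj
      rw [hb'] at h2
      exact absurd h2 (by decide)
    · intro a ha
      have h1 := h a (List.mem_finRange a)
      have ha' : ¬ f a = true := ha
      rw [if_neg ha', List.any_eq_true] at h1
      obtain ⟨b, hb, hfb⟩ := h1
      exact ⟨b, hfb, hb⟩
  · rintro ⟨h1, h2⟩ a -
    by_cases ha : f a = true
    · rw [if_pos ha, List.all_eq_true]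
      intro b hb
      by_contra hc
      have hb' : f b = true := by
        cases hfb : f b
        · rw [hfb] at hc
          exact absurd rfl hc
        · rfl
      exact h1 (x := a) ha (y := b) hb' (fun h => hi a (h ▸ hb)) hb
    · rw [if_neg ha, List.any_eq_true]
      obtain ⟨b, hb, hadj⟩ := h2 a ha
      exact ⟨b, hadj, hb⟩

theorem mis_ofNb {n : ℕ} (nb : Fin n → List (Fin n)) (hs : ∀ a b, b ∈ nb a → a ∈ nb b)
    (hi : ∀ a, a ∉ nb a) :
    mis (ofNb nb hs hi) =
      ((Finset.univ : Finset (Fin n → Bool)).filter fun f => isM nb f = true).card := by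
  classical
  unfold mis
  rw [← Set.ncard_coe_finset]
  have hinj : Function.Injective (fun f : Fin n → Bool => {a | f a = true}) := by
    intro f g h
    funext a
    have h' : (a ∈ {a | f a = true}) ↔ (a ∈ {a | g a = true}) := Set.ext_iff.1 h a
    exact Bool.eq_iff_iff.2 h'
  rw [← Set.ncard_image_of_injective _ hinj]
  congr 1
  ext s
  constructor
  · intro h
    have he : {a | (fun a => decide (a ∈ s)) a = true} = s := by
      ext a
      simp
    refine ⟨fun a => decide (a ∈ s), ?_, he⟩
    simp only [Finset.coe_filter, Finset.mem_univ, true_and, Set.mem_ofPred_eq]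
    rw [isM_iff nb hs hi]
    show Maximal (ofNb nb hs hi).IsIndepSet {a | (fun a => decide (a ∈ s)) a = true}
    rw [he]
    exact h
  · rintro ⟨f, hf, rfl⟩
    simp only [Finset.coe_filter, Finset.mem_univ, true_and, Set.mem_ofPred_eq] at hf
    exact (isM_iff nb hs hi f).1 hf

/-- Neighbours in the graph on 8 vertices. -/
def nb8 : Fin 8 → List (Fin 8) :=
  ![[1, 4, 5], [0, 2, 6], [1, 5, 7], [4, 5, 6], [0, 3, 7], [0, 2, 3], [1, 3, 7], [2, 4, 6]]

/-- Neighbours in the Petersen graph. -/
def nb10 : Fin 10 → List (Fin 10) :=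
  ![[2, 4, 5], [4, 8, 9], [0, 7, 8], [4, 6, 7], [0, 1, 3], [0, 6, 9], [3, 5, 8], [2, 3, 9],
    [1, 2, 6], [1, 5, 7]]

/-- Neighbours in the graph on 12 vertices. -/
def nb12 : Fin 12 → List (Fin 12) :=
  ![[1, 9, 10], [0, 6, 8], [5, 8, 9], [4, 6, 10], [3, 9, 11], [2, 7, 10], [1, 3, 7], [5, 6, 11],
    [1, 2, 11], [0, 2, 4], [0, 3, 5], [4, 7, 8]]

theorem card8 :
    ((Finset.univ : Finset (Fin 8 → Bool)).filter fun f => isM nb8 f = true).card = 8 := by
  decide +kernel

theorem card10 :
    ((Finset.univ : Finset (Fin 10 → Bool)).filter fun f => isM nb10 f = true).card = 15 := by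
  decide +kernel

theorem card12 :
    ((Finset.univ : Finset (Fin 12 → Bool)).filter fun f => isM nb12 f = true).card = 31 := by
  decide +kernel

theorem good_of {n : ℕ} (nb : Fin n → List (Fin n)) (hs : ∀ a b, b ∈ nb a → a ∈ nb b)
    (hi : ∀ a, a ∉ nb a) (h3 : ∀ a, (nb a).toFinset.card = 3)
    (ht : ∀ a, ∀ b ∈ nb a, ∀ c ∈ nb a, c ∉ nb b) {m : ℕ}
    (hm : ((Finset.univ : Finset (Fin n → Bool)).filter fun f => isM nb f = true).card = m) :
    Good (ofNb nb hs hi) m := by
  refine ⟨?_, ?_, ?_⟩
  · intro v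
    have h : (ofNb nb hs hi).neighborSet v = ((nb v).toFinset : Set (Fin n)) := by
      ext x
      rw [SimpleGraph.mem_neighborSet, Finset.mem_coe, List.mem_toFinset]
      exact Iff.rfl
    rw [h, Set.ncard_coe_finset, h3]
  · intro s hs'
    rw [SimpleGraph.is3Clique_iff] at hs'
    obtain ⟨a, b, c, hab, hac, hbc, -⟩ := hs'
    exact ht a b hab c hac hbc
  · rw [mis_ofNb, hm]

theorem good8 : ∃ G : SimpleGraph (Fin 8), Good G 8 :=
  ⟨_, good_of nb8 (by decide) (by decide) (by decide) (by decide) card8⟩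

theorem good10 : ∃ G : SimpleGraph (Fin 10), Good G 15 :=
  ⟨_, good_of nb10 (by decide) (by decide) (by decide) (by decide) card10⟩

theorem good12 : ∃ G : SimpleGraph (Fin 12), Good G 31 :=
  ⟨_, good_of nb12 (by decide) (by decide) (by decide) (by decide) card12⟩

/-- For every `n ≥ 2` there is a cubic triangle-free graph on `10 n` vertices with exactly
`248 * 15 ^ (n - 2)` maximal independent sets. -/
theorem cubic (k : ℕ) : ∃ (V : Type) (_ : Fintype V) (G : SimpleGraph V),
    Fintype.card V = 10 * (k + 2) ∧ Good G (248 * 15 ^ k) := by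
  induction k with
  | zero =>
    obtain ⟨G, hG⟩ := good12
    obtain ⟨H, hH⟩ := good8
    refine ⟨Fin 12 ⊕ Fin 8, inferInstance, G.sum H, by simp, ?_⟩
    have h := hG.sum hH
    norm_num at h ⊢
    exact h
  | succ k ih =>
    obtain ⟨V, hV, G, hc, hG⟩ := ih
    obtain ⟨H, hH⟩ := good10
    refine ⟨V ⊕ Fin 10, inferInstance, G.sum H, ?_, ?_⟩
    · rw [Fintype.card_sum, hc, Fintype.card_fin]
      ring
    · have h := hG.sum hH
      have he : 248 * 15 ^ k * 15 = 248 * 15 ^ (k + 1) := by ring
      rwa [he] at h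

end Pool.Agent.H4.Cub
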